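import Mathlib
import Pool.Agent.Lib.MP_1a5e21_co.Final

/-!
# Two copies of a Kneser graph `KG(m,w)` can pack although `w/m` is arbitrarily small
-/

set_option autoImplicit false

namespace Pool.Agent.Results.MP_1a5e21_co.KneserPacking

/-- The Kneser graph `KG(m,w)`: the vertices are the `w`-element subsets of an `m`-element set;
two different vertices are adjacent when they are disjoint sets. -/
def KG (m w : ℕ) : SimpleGraph {s : Finset (Fin m) // s.card = w} where
  Adj s t := s ≠ t ∧ s.1 ∩ t.1 = ∅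
  symm := ⟨fun s t h => ⟨h.1.symm, by rw [Finset.inter_comm]; exact h.2⟩⟩
  loopless := ⟨fun _ h => h.1 rfl⟩

/-- Two copies of `G` pack into the complete graph on `N` vertices: there are two injective maps
of the vertices of `G` into `N` points such that the two images of the edge set of `G` have no
edge in common. -/
def TwoCopiesPack {V : Type} (G : SimpleGraph V) (N : ℕ) : Prop :=
  ∃ φ₁ φ₂ : V → Fin N, Function.Injective φ₁ ∧ Function.Injective φ₂ ∧
    ∀ u v u' v' : V, G.Adj u v → G.Adj u' v' → s(φ₁ u, φ₁ v) ≠ s(φ₂ u', φ₂ v')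

/-- For every `c > 0` there are arbitrarily large `m` for which two copies of some Kneser graph
`KG(m,w)` with `1 ≤ w < c m` pack into the complete graph on its number of vertices; in fact
`KG(m,w)` is then mapped by a bijection onto a spanning subgraph of its own complement. -/
theorem result : ∀ c : ℝ, 0 < c → ∀ M : ℕ, ∃ m w : ℕ, M ≤ m ∧ 1 ≤ w ∧ w < m ∧
    (w : ℝ) < c * m ∧ TwoCopiesPack (KG m w) (m.choose w) ∧
      ∃ f : KG m w →g (KG m w)ᶜ, Function.Bijective f := by
  intro c hc M
  obtain ⟨D, hD⟩ := exists_nat_gt (1 / c + M)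
  have h0 : (0 : ℝ) < 1 / c := by positivity
  have hM0 : (0 : ℝ) ≤ (M : ℝ) := Nat.cast_nonneg M
  have hD1 : 1 ≤ D := by
    have h2 : (0 : ℝ) < (D : ℝ) := by linarith
    exact_mod_cast h2
  have hDM : M ≤ D := by
    have h2 : (M : ℝ) < (D : ℝ) := by linarith
    exact_mod_cast h2.le
  obtain ⟨m, w, hw1, hwm, hDw, σ, hσ⟩ := Pool.Agent.Lib.MP_1a5e21_co.main D hD1
  have hne : ∀ s t : {s : Finset (Fin m) // s.card = w}, Disjoint s.1 t.1 → s ≠ t := by
    intro s t hd he
    subst he
    have h2 := Finset.disjoint_self_iff_empty _ |>.mp hd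
    have h3 := s.2
    rw [h2, Finset.card_empty] at h3
    omega
  have hadj : ∀ s t, (KG m w).Adj s t → Disjoint s.1 t.1 := fun s t h =>
    Finset.disjoint_iff_inter_eq_empty.mpr h.2
  refine ⟨m, w, ?_, hw1, hwm, ?_, ?_, ?_⟩
  · have : D * 1 ≤ D * w := Nat.mul_le_mul_left _ hw1
    omega
  · have h5 : ((D : ℝ) * w) < m := by exact_mod_cast hDw
    have h6 : (0 : ℝ) < w := by exact_mod_cast hw1
    have h4 : (1 : ℝ) < c * D := by
      have h5 : 1 / c < (D : ℝ) := by linarith
      have h6 := (div_lt_iff₀ hc).mp h5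
      linarith [mul_comm c (D : ℝ)]
    have h7 : c * ((D : ℝ) * w) < c * m := mul_lt_mul_of_pos_left h5 hc
    nlinarith
  · have hcard : Fintype.card {s : Finset (Fin m) // s.card = w} = m.choose w := by
      rw [Fintype.card_finset_len, Fintype.card_fin]
    obtain ⟨e⟩ : Nonempty ({s : Finset (Fin m) // s.card = w} ≃ Fin (m.choose w)) :=
      ⟨Fintype.equivFinOfCardEq hcard⟩
    refine ⟨fun s => e (σ s), fun s => e s, e.injective.comp σ.injective, e.injective, ?_⟩
    intro u v u' v' huv huv' he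
    have h1 := hσ u v (hadj _ _ huv)
    apply h1
    rw [Sym2.eq_iff] at he
    rcases he with ⟨h2, h3⟩ | ⟨h2, h3⟩
    · rw [e.injective h2, e.injective h3]
      exact hadj _ _ huv'
    · rw [e.injective h2, e.injective h3]
      exact (hadj _ _ huv').symm
  · refine ⟨⟨σ, ?_⟩, σ.bijective⟩
    intro u v huv
    rw [SimpleGraph.compl_adj]
    refine ⟨fun h => huv.1 (σ.injective h), fun h => ?_⟩
    exact hσ u v (hadj _ _ huv) (hadj _ _ h)

end Pool.Agent.Results.MP_1a5e21_co.KneserPacking
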